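import Pool.Agent.helper36.PP.SpecE

/-! pp:FC. The qualitative form. -/

set_option autoImplicit false

open Complex Metric Set Filter Topology MeasureTheory MPS MQ

noncomputable section

namespace PPS

theorem FC_bd (f : Polynomial ℂ) (hf : 2 ≤ f.natDegree) : ∃ a > (0 : ℝ), Bd f.natDegree a f := by
  have hf0 : f ≠ 0 := by
    rintro rfl
    simp at hf
  have hlc : 0 < ‖f.leadingCoeff‖ := norm_pos_iff.2 (Polynomial.leadingCoeff_ne_zero.2 hf0)
  have hS : 0 ≤ ∑ i ∈ Finset.range (f.natDegree + 1), ‖f.coeff i‖ :=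
    Finset.sum_nonneg fun i _ => norm_nonneg _
  have hinv : 0 < ‖f.leadingCoeff‖⁻¹ := inv_pos.2 hlc
  refine ⟨(∑ i ∈ Finset.range (f.natDegree + 1), ‖f.coeff i‖) + ‖f.leadingCoeff‖⁻¹, by positivity,
    rfl, ?_, ?_⟩
  · intro i
    by_cases hi : i ≤ f.natDegree
    · have h1 : ‖f.coeff i‖ ≤ ∑ i ∈ Finset.range (f.natDegree + 1), ‖f.coeff i‖ :=
        Finset.single_le_sum (f := fun i => ‖f.coeff i‖) (fun i _ => norm_nonneg _)
          (Finset.mem_range.2 (by omega))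
      linarith
    · rw [Polynomial.coeff_eq_zero_of_natDegree_lt (by omega), norm_zero]
      positivity
  · rw [add_mul, inv_mul_cancel₀ hlc.ne']
    have := mul_nonneg hS hlc.le
    linarith

theorem FC (hFD : FD_stmt) : FC_stmt := by
  intro f ζ hf hζ hζ1 hlim δ hδ
  obtain ⟨a, ha, hbd⟩ := FC_bd f hf
  have hd0 : 0 < ‖ζ - 1‖ := norm_pos_iff.mpr (sub_ne_zero.mpr hζ1)
  set d : ℝ := ‖ζ - 1‖ / 2 with hd
  have hdpos : 0 < d := by positivity
  obtain ⟨K, hK, hF⟩ := hFD f.natDegree a d hf ha hdpos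
  have hζ0 : ζ ≠ 0 := by
    intro h0
    rw [h0, norm_zero] at hζ
    exact zero_ne_one hζ
  have h1 : ∀ᶠ ρ in 𝓝 ζ, d ≤ ‖ρ / (‖ρ‖ : ℂ) - 1‖ := by
    have hcont : ContinuousAt (fun ρ : ℂ => ‖ρ / (‖ρ‖ : ℂ) - 1‖) ζ := by
      have : ContinuousAt (fun ρ : ℂ => ρ / (‖ρ‖ : ℂ)) ζ := by
        refine continuousAt_id.div (Complex.continuous_ofReal.comp continuous_norm).continuousAt ?_
        exact Complex.ofReal_ne_zero.mpr (norm_ne_zero_iff.mpr hζ0)
      exact (this.sub continuousAt_const).norm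
    have hval : d < ‖ζ / (‖ζ‖ : ℂ) - 1‖ := by
      rw [hζ, Complex.ofReal_one, div_one]
      linarith
    exact (hcont.eventually (lt_mem_nhds hval)).mono fun _ h => h.le
  have h2 : ∀ᶠ ρ in 𝓝 ζ, K * Real.log ‖ρ‖ < δ := by
    have hcont : ContinuousAt (fun ρ : ℂ => K * Real.log ‖ρ‖) ζ :=
      continuousAt_const.mul
        ((Real.continuousAt_log (norm_ne_zero_iff.mpr hζ0)).comp continuous_norm.continuousAt)
    have hval : K * Real.log ‖ζ‖ < δ := by
      rw [hζ, Real.log_one, mul_zero]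
      exact hδ
    exact hcont.eventually (gt_mem_nhds hval)
  obtain ⟨η, hη, hη2⟩ := Metric.eventually_nhds_iff.mp (h1.and h2)
  obtain ⟨k, z, hz, hm1, hm⟩ := hlim η hη
  have h3 := hη2 (y := mlt f k z) (by rw [dist_eq_norm]; exact hm)
  obtain ⟨m, t, k', z', hm', ht, hc, hn1⟩ := hF f k z hbd hz hm1 h3.1
  exact ⟨m, t, k', z', hm', ht.trans_lt h3.2, hc, hn1⟩

end PPS
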