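import Pool.Agent.helper36.PP.SpecE

/-! pp:FD. Distance to indifferent cycles. -/

set_option autoImplicit false

open Complex Metric Set Filter Topology MeasureTheory MPS MQ

noncomputable section

namespace PPS

theorem FD_iter_diff (f : Polynomial ℂ) (m : ℕ) (Z : ℂ → ℂ) (U : Set ℂ)
    (hZ : DifferentiableOn ℂ Z U) (k : ℕ) :
    DifferentiableOn ℂ
      (fun t => (fun w : ℂ => (f + Polynomial.C t * Polynomial.X ^ m).eval w)^[k] (Z t)) U := by
  induction k with
  | zero => simpa using hZ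
  | succ k ih =>
    have h1 : (fun t => (fun w : ℂ => (f + Polynomial.C t * Polynomial.X ^ m).eval w)^[k + 1] (Z t)) =
        fun t => f.eval ((fun w : ℂ => (f + Polynomial.C t * Polynomial.X ^ m).eval w)^[k] (Z t)) +
          t * ((fun w : ℂ => (f + Polynomial.C t * Polynomial.X ^ m).eval w)^[k] (Z t)) ^ m := by
      funext t
      rw [Function.iterate_succ_apply']
      simp
    rw [h1]
    have h2 : DifferentiableOn ℂ (fun t =>
        f.eval ((fun w : ℂ => (f + Polynomial.C t * Polynomial.X ^ m).eval w)^[k] (Z t))) U :=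
      f.differentiable.comp_differentiableOn ih
    exact h2.add (differentiableOn_id.mul (ih.pow m))

theorem FD_mlt_succ (f : Polynomial ℂ) (k : ℕ) (z : ℂ) :
    mlt f (k + 1) z = fd f ((fun w : ℂ => f.eval w)^[k] z) * mlt f k z := by
  have hd : Differentiable ℂ (fun w : ℂ => f.eval w) := f.differentiable
  have hk : Differentiable ℂ (fun w : ℂ => f.eval w)^[k] := hd.iterate k
  unfold mlt
  rw [Function.iterate_succ', deriv_comp z (hd _) (hk z), Polynomial.deriv]
  rfl

theorem FD_mlt_diff (f : Polynomial ℂ) (m : ℕ) (Z : ℂ → ℂ) (U : Set ℂ)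
    (hZ : DifferentiableOn ℂ Z U) (k : ℕ) :
    DifferentiableOn ℂ (fun t => mlt (f + Polynomial.C t * Polynomial.X ^ m) k (Z t)) U := by
  induction k with
  | zero =>
    have h1 : (fun t => mlt (f + Polynomial.C t * Polynomial.X ^ m) 0 (Z t)) = fun _ => (1 : ℂ) := by
      funext t
      unfold mlt
      simp
    rw [h1]
    exact differentiableOn_const _
  | succ k ih =>
    have h1 : (fun t => mlt (f + Polynomial.C t * Polynomial.X ^ m) (k + 1) (Z t)) = fun t =>
        (f.derivative.eval ((fun w : ℂ => (f + Polynomial.C t * Polynomial.X ^ m).eval w)^[k] (Z t)) +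
          t * ((m : ℂ) *
            ((fun w : ℂ => (f + Polynomial.C t * Polynomial.X ^ m).eval w)^[k] (Z t)) ^ (m - 1))) *
        mlt (f + Polynomial.C t * Polynomial.X ^ m) k (Z t) := by
      funext t
      rw [FD_mlt_succ]
      congr 1
      unfold fd
      simp only [Polynomial.derivative_add, Polynomial.derivative_C_mul, Polynomial.derivative_X_pow,
        Polynomial.eval_add, Polynomial.eval_mul, Polynomial.eval_C, Polynomial.eval_pow,
        Polynomial.eval_X]
    rw [h1]
    have h0 := FD_iter_diff f m Z U hZ k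
    have h2 : DifferentiableOn ℂ (fun t => f.derivative.eval
        ((fun w : ℂ => (f + Polynomial.C t * Polynomial.X ^ m).eval w)^[k] (Z t))) U :=
      f.derivative.differentiable.comp_differentiableOn h0
    exact (h2.add (differentiableOn_id.mul ((h0.pow (m - 1)).const_mul _))).mul ih

theorem FD (hFA : FA_stmt) (hFIX : FIX_stmt) (hCON : CON_stmt) (hZBC : MPS.ZBC_stmt) : FD_stmt := by
  intro n a d₀ hn ha hd₀
  obtain ⟨K₁, hK₁, hFA'⟩ := hFA n a d₀ hn ha hd₀
  obtain ⟨T, hT, hFIX'⟩ := hFIX n a hn ha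
  have hn0 : (0 : ℝ) < n := by
    have : 0 < n := by omega
    exact_mod_cast this
  have hK0 : 0 < max (4 * n * K₁) (2 * K₁ * T) := lt_max_of_lt_left (by positivity)
  refine ⟨max (4 * n * K₁) (2 * K₁ * T), hK0, ?_⟩
  intro f k z hf hz hρ hdir
  set L := Real.log ‖mlt f k z‖ with hL
  have hL0 : 0 < L := Real.log_pos hρ
  set K := max (4 * n * K₁) (2 * K₁ * T) with hK
  by_cases hbig : 1 ≤ 2 * K₁ * L
  · obtain ⟨t, z', ht, hc, hm⟩ := hFIX' f hf
    refine ⟨0, t, 1, z', by omega, ?_, hc, ?_⟩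
    · have h1 : T ≤ 2 * K₁ * T * L := by nlinarith
      have h2 : 2 * K₁ * T * L ≤ K * L := mul_le_mul_of_nonneg_right (le_max_right _ _) hL0.le
      linarith
    · rw [hm, norm_one]
  push Not at hbig
  by_contra hcon
  push Not at hcon
  have hr : 0 < K * L := by positivity
  have hex : ∀ m < n - 1, ∃ Z : ℂ → ℂ, DifferentiableOn ℂ Z (ball 0 (K * L)) ∧ Z 0 = z ∧
      ∀ t ∈ ball (0 : ℂ) (K * L), Cyc (f + Polynomial.C t * Polynomial.X ^ m) k (Z t) := by
    intro m hm
    refine hCON n k m f (K * L) hn hf.1 hm hz.1 hr ?_ z hz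
    intro t ht k' z' hc
    rw [mem_ball_zero_iff] at ht
    exact hcon m t k' z' hm ht.le hc
  choose! Z hZ using hex
  have h1 := hFA' f k z (K * L) Z hf hz hρ hdir hr hZ
  have h2 : ∀ m ∈ Finset.range (n - 1),
      ‖deriv (fun t => mlt (f + Polynomial.C t * Polynomial.X ^ m) k (Z m t)) 0 / mlt f k z‖ ≤
      2 / K := by
    intro m hm
    rw [Finset.mem_range] at hm
    obtain ⟨hZd, hZ0, hZc⟩ := hZ m hm
    have hdiff := FD_mlt_diff f m (Z m) (ball 0 (K * L)) hZd k
    have hat0 : mlt (f + Polynomial.C 0 * Polynomial.X ^ m) k (Z m 0) = mlt f k z := by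
      rw [hZ0]
      simp
    have hne : ∀ t ∈ ball (0 : ℂ) (K * L),
        ‖mlt (f + Polynomial.C t * Polynomial.X ^ m) k (Z m t)‖ ≠ 1 := by
      intro t ht
      have ht' := ht
      rw [mem_ball_zero_iff] at ht'
      exact hcon m t k (Z m t) hm ht'.le (hZc t ht)
    have hgt : ∀ t ∈ ball (0 : ℂ) (K * L),
        1 < ‖mlt (f + Polynomial.C t * Polynomial.X ^ m) k (Z m t)‖ := by
      intro t ht
      by_contra hle
      push Not at hle
      have h0 : (0 : ℂ) ∈ ball (0 : ℂ) (K * L) := mem_ball_self hr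
      have hiv := (convex_ball (0 : ℂ) (K * L)).isPreconnected.intermediate_value ht h0
        (f := fun t => ‖mlt (f + Polynomial.C t * Polynomial.X ^ m) k (Z m t)‖)
        hdiff.continuousOn.norm
      have h1mem : (1 : ℝ) ∈ Icc ‖mlt (f + Polynomial.C t * Polynomial.X ^ m) k (Z m t)‖
          ‖mlt (f + Polynomial.C 0 * Polynomial.X ^ m) k (Z m 0)‖ := by
        refine ⟨hle, ?_⟩
        rw [hat0]
        exact hρ.le
      obtain ⟨s, hs, hs1⟩ := hiv h1mem
      exact hne s hs hs1
    have h3 := hZBC (fun t => mlt (f + Polynomial.C t * Polynomial.X ^ m) k (Z m t)) 0 (K * L) hr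
      hdiff hgt
    simp only [hat0] at h3
    refine h3.trans (le_of_eq ?_)
    rw [← hL]
    field_simp
  have h3 : ∑ m ∈ Finset.range (n - 1),
      ‖deriv (fun t => mlt (f + Polynomial.C t * Polynomial.X ^ m) k (Z m t)) 0 / mlt f k z‖ ≤
      (n - 1 : ℕ) * (2 / K) := by
    refine (Finset.sum_le_sum h2).trans (le_of_eq ?_)
    rw [Finset.sum_const, Finset.card_range, nsmul_eq_mul]
  have h4 : ((n - 1 : ℕ) : ℝ) * (2 / K) ≤ 1 / (2 * K₁) := by
    have h5 : ((n - 1 : ℕ) : ℝ) ≤ n := by exact_mod_cast Nat.sub_le n 1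
    have h6 : 4 * n * K₁ ≤ K := le_max_left _ _
    rw [mul_div_assoc', div_le_div_iff₀ hK0 (by positivity)]
    nlinarith
  have h5 : K₁ * (L + ∑ m ∈ Finset.range (n - 1),
      ‖deriv (fun t => mlt (f + Polynomial.C t * Polynomial.X ^ m) k (Z m t)) 0 / mlt f k z‖) ≤
      K₁ * (L + 1 / (2 * K₁)) := by
    apply mul_le_mul_of_nonneg_left _ hK₁.le
    linarith
  have h6 : K₁ * (L + 1 / (2 * K₁)) = K₁ * L + 1 / 2 := by
    field_simp
  linarith

end PPS
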