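import Pool.Agent.helper36.PP.SpecL
import Pool.Agent.helper36.PP.PRB

/-! pp:RAN. The image of the polynomials of degree at most `n - 2` under the transfer operator.

Partial fractions: `Q / f' = ∑_c r_c / (lc (X - c)^{e_c})`, and `f - f c = (X - c)^{e_c} W_c`, so at a preimage `y` of `z`
`1 / (y - c)^{e_c} = W_c(y) / (z - f c)`; the sum of `r_c W_c / f'` over the preimages is the coefficient of
`X^(n-1)` of `r_c W_c` divided by the leading coefficient of `f` (Lagrange). -/

set_option autoImplicit false

open Complex Metric Set Filter Topology MeasureTheory MPS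

noncomputable section

namespace PPS

theorem RAN_lag (f B : Polynomial ℂ) (hf : 1 ≤ f.natDegree) (hB : B.natDegree < f.natDegree) (z : ℂ)
    (hz : z ∉ CV f) :
    ((pre f z).map fun y => B.eval y / fd f y).sum = B.coeff (f.natDegree - 1) / f.leadingCoeff := by
  classical
  obtain ⟨hmem, hcard, hnod, -, -, -⟩ := PRB f hf
  have hnd := hnod z hz
  set s : Finset ℂ := (pre f z).toFinset with hs
  have hval : s.val = pre f z := by
    rw [hs, Multiset.toFinset_val]
    exact hnd.dedup
  have hF : f - Polynomial.C z = Polynomial.C f.leadingCoeff * Lagrange.nodal s id := by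
    have h1 : (f - Polynomial.C z).Splits := IsAlgClosed.splits _
    have h2 := h1.eq_prod_roots
    have h3 : (f - Polynomial.C z).leadingCoeff = f.leadingCoeff := by
      rw [Polynomial.leadingCoeff, PRB_deg f z hf, Polynomial.coeff_sub, Polynomial.coeff_C,
        if_neg (by omega), sub_zero]
      rfl
    rw [h3] at h2
    rw [h2]
    congr 1
    unfold Lagrange.nodal
    rw [Finset.prod, hval]
    rfl
  have hder : f.derivative =
      Polynomial.C f.leadingCoeff * (Lagrange.nodal s (id : ℂ → ℂ)).derivative := by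
    have := congrArg Polynomial.derivative hF
    rwa [Polynomial.derivative_sub, Polynomial.derivative_C, sub_zero,
      Polynomial.derivative_C_mul] at this
  have hsum : ((pre f z).map fun y => B.eval y / fd f y).sum =
      ∑ y ∈ s, B.eval y / fd f y := by
    rw [Finset.sum, hval]
  have hsc : s.card = f.natDegree := by
    have : s.card = (pre f z).card := by rw [← hval]; rfl
    rw [this, hcard]
  have hinj : Set.InjOn (id : ℂ → ℂ) s := Set.injOn_id _
  have hdeg : B.degree < s.card := by
    rw [hsc]
    exact lt_of_le_of_lt Polynomial.degree_le_natDegree (by exact_mod_cast hB)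
  have h5 := Lagrange.coeff_eq_sum hinj hdeg
  rw [hsum, ← hsc, h5, Finset.sum_div]
  refine Finset.sum_congr rfl fun y hy => ?_
  have h6 : fd f y = f.leadingCoeff * ∏ j ∈ s.erase y, (y - j) := by
    unfold fd
    rw [hder, Polynomial.eval_mul, Polynomial.eval_C]
    congr 1
    have h7 := Lagrange.eval_nodal_derivative_eval_node_eq (s := s) (v := (id : ℂ → ℂ)) hy
    simp only [id] at h7
    have h8 : (Lagrange.nodal (s.erase y) (id : ℂ → ℂ)).eval y = ∏ j ∈ s.erase y, (y - j) := by
      rw [Lagrange.eval_nodal]
      rfl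
    rw [← h8]
    exact h7
  simp only [id]
  rw [h6, div_div, mul_comm]

theorem RAN_pf (f Q : Polynomial ℂ) (hf : 2 ≤ f.natDegree) (hQ : Q.natDegree + 2 ≤ f.natDegree) :
    ∃ B : ℂ → Polynomial ℂ, (∀ c ∈ f.derivative.roots.toFinset, (B c).natDegree < f.natDegree) ∧
      ∀ y : ℂ, f.eval y ∉ CV f → Q.eval y / fd f y =
        ∑ c ∈ f.derivative.roots.toFinset, (B c).eval y / (f.eval y - f.eval c) := by
  classical
  set s := f.derivative.roots.toFinset with hs
  set e : ℂ → ℕ := fun c => f.derivative.roots.count c with he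
  set g : ℂ → Polynomial ℂ := fun c => (Polynomial.X - Polynomial.C c) ^ e c with hg
  have hgm : ∀ c, (g c).Monic := fun c => (Polynomial.monic_X_sub_C c).pow _
  have hcop : Set.Pairwise (s : Set ℂ) fun i j => IsCoprime (g i) (g j) := by
    intro i _ j _ hij
    exact (Polynomial.isCoprime_X_sub_C_of_isUnit_sub
      (sub_ne_zero.2 hij).isUnit).pow
  have hd0 : f.derivative ≠ 0 := by
    intro h
    have := Polynomial.natDegree_eq_zero_of_derivative_eq_zero h
    omega
  have hdd : f.derivative.natDegree = f.natDegree - 1 := Polynomial.natDegree_derivative f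
  have hsplit : f.derivative = Polynomial.C f.derivative.leadingCoeff * ∏ c ∈ s, g c := by
    have h1 : (f.derivative).Splits := IsAlgClosed.splits _
    have h2 := h1.eq_prod_roots
    rw [Finset.prod_multiset_map_count] at h2
    exact h2
  have hlc : f.derivative.leadingCoeff ≠ 0 := Polynomial.leadingCoeff_ne_zero.2 hd0
  have hPm : (∏ c ∈ s, g c).Monic := Polynomial.monic_prod_of_monic _ _ fun c _ => hgm c
  have hPdeg : (∏ c ∈ s, g c).natDegree = f.natDegree - 1 := by
    rw [← hdd]
    conv_rhs => rw [hsplit]
    rw [Polynomial.natDegree_C_mul hlc]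
  obtain ⟨q, r, hr, hQe⟩ := Polynomial.eq_quo_mul_prod_add_sum_rem_mul_prod Q
    (fun i (_ : i ∈ s) => hgm i) hcop
  have hq : q = 0 := by
    by_contra hq
    have h1 : (∑ i ∈ s, r i * ∏ k ∈ s.erase i, g k).degree < (∏ c ∈ s, g c).degree := by
      rw [Polynomial.degree_eq_natDegree hPm.ne_zero]
      refine (Polynomial.degree_sum_le _ _).trans_lt ?_
      rw [Finset.sup_lt_iff (WithBot.bot_lt_coe _)]
      intro i hi
      have h2 : ∏ c ∈ s, g c = g i * ∏ k ∈ s.erase i, g k := (Finset.mul_prod_erase s g hi).symm
      have h3 : (∏ k ∈ s.erase i, g k).Monic := Polynomial.monic_prod_of_monic _ _ fun c _ => hgm c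
      rw [← Polynomial.degree_eq_natDegree hPm.ne_zero, h2, Polynomial.degree_mul,
        Polynomial.degree_mul, Polynomial.degree_eq_natDegree h3.ne_zero]
      exact WithBot.add_lt_add_right (WithBot.coe_ne_bot) (hr i hi)
    have h4 : Q.degree < (∏ c ∈ s, g c).degree := by
      rw [Polynomial.degree_eq_natDegree hPm.ne_zero, hPdeg]
      exact lt_of_le_of_lt Polynomial.degree_le_natDegree (by
        have : Q.natDegree < f.natDegree - 1 := by omega
        exact_mod_cast this)
    have h5 : q * ∏ c ∈ s, g c = Q - ∑ i ∈ s, r i * ∏ k ∈ s.erase i, g k := by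
      rw [hQe]
      ring
    have h6 : (q * ∏ c ∈ s, g c).degree < (∏ c ∈ s, g c).degree := by
      rw [h5]
      exact (Polynomial.degree_sub_le _ _).trans_lt (max_lt h4 h1)
    rw [Polynomial.degree_mul] at h6
    have h7 : (0 : WithBot ℕ) ≤ q.degree := Polynomial.zero_le_degree_iff.2 hq
    exact absurd h6 (not_lt.2 (le_add_of_nonneg_left h7))
  have hW : ∀ c ∈ s, ∃ W : Polynomial ℂ, f - Polynomial.C (f.eval c) = g c * W := by
    intro c hc
    have h1 : (f - Polynomial.C (f.eval c)).IsRoot c := by
      rw [Polynomial.IsRoot.def, Polynomial.eval_sub, Polynomial.eval_C, sub_self]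
    have h2 := Polynomial.derivative_rootMultiplicity_of_root h1
    rw [Polynomial.derivative_sub, Polynomial.derivative_C, sub_zero] at h2
    have h3 : e c = f.derivative.rootMultiplicity c := by
      rw [he]
      exact Polynomial.count_roots _
    have h4 : (Polynomial.X - Polynomial.C c) ^ (f - Polynomial.C (f.eval c)).rootMultiplicity c ∣
        f - Polynomial.C (f.eval c) := Polynomial.pow_rootMultiplicity_dvd _ _
    have h5 : g c ∣ f - Polynomial.C (f.eval c) := by
      refine dvd_trans (pow_dvd_pow _ ?_) h4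
      rw [h3, h2]
      exact Nat.sub_le _ _
    exact h5
  choose! W hW using hW
  refine ⟨fun c => Polynomial.C (f.derivative.leadingCoeff)⁻¹ * (r c * W c), ?_, ?_⟩
  · intro c hc
    refine lt_of_le_of_lt (Polynomial.natDegree_C_mul_le _ _) ?_
    have h1 := hW c hc
    have h2 : (f - Polynomial.C (f.eval c)).natDegree = f.natDegree := Polynomial.natDegree_sub_C
    have h3 : f - Polynomial.C (f.eval c) ≠ 0 := PRB_ne f _ (by omega)
    have hW0 : W c ≠ 0 := by
      rintro h
      rw [h, mul_zero] at h1
      exact h3 h1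
    have h4 : (r c * W c).degree < (f.natDegree : WithBot ℕ) := by
      rw [← h2, ← Polynomial.degree_eq_natDegree h3, h1, Polynomial.degree_mul,
        Polynomial.degree_mul, Polynomial.degree_eq_natDegree hW0]
      exact WithBot.add_lt_add_right (WithBot.coe_ne_bot) (hr c hc)
    by_cases h5 : r c * W c = 0
    · rw [h5, Polynomial.natDegree_zero]
      omega
    · exact (Polynomial.natDegree_lt_iff_degree_lt h5).2 h4
  · intro y hy
    have hfy : fd f y ≠ 0 := fun h => hy ⟨y, h, rfl⟩
    have h1 : Q.eval y = ∑ i ∈ s, (r i).eval y * ∏ k ∈ s.erase i, (g k).eval y := by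
      conv_lhs => rw [hQe, hq, zero_mul, zero_add, Polynomial.eval_finset_sum]
      refine Finset.sum_congr rfl fun i _ => ?_
      rw [Polynomial.eval_mul, Polynomial.eval_prod]
    have h2 : fd f y = f.derivative.leadingCoeff * ∏ c ∈ s, (g c).eval y := by
      unfold fd
      conv_lhs => rw [hsplit, Polynomial.eval_mul, Polynomial.eval_C, Polynomial.eval_prod]
    have hg0 : ∀ c ∈ s, (g c).eval y ≠ 0 := by
      intro c hc h
      apply hfy
      rw [h2, Finset.prod_eq_zero hc h, mul_zero]
    rw [h1, Finset.sum_div]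
    refine Finset.sum_congr rfl fun c hc => ?_
    have h3 : f.eval y - f.eval c = (g c).eval y * (W c).eval y := by
      have := congrArg (Polynomial.eval y) (hW c hc)
      rwa [Polynomial.eval_sub, Polynomial.eval_C, Polynomial.eval_mul] at this
    have h4 : f.eval y - f.eval c ≠ 0 := by
      intro h
      apply hy
      rw [sub_eq_zero.1 h]
      refine ⟨c, ?_, rfl⟩
      rw [hs, Multiset.mem_toFinset, Polynomial.mem_roots hd0] at hc
      exact hc
    have hW0 : (W c).eval y ≠ 0 := by
      intro h
      rw [h, mul_zero] at h3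
      exact h4 h3
    have h5 : ∏ c ∈ s, (g c).eval y = (g c).eval y * ∏ k ∈ s.erase c, (g k).eval y :=
      (Finset.mul_prod_erase s (fun c => (g c).eval y) hc).symm
    have h6 : ∏ k ∈ s.erase c, (g k).eval y ≠ 0 := by
      rw [Finset.prod_ne_zero_iff]
      intro k hk
      exact hg0 k (Finset.mem_of_mem_erase hk)
    rw [h2, h5, h3, Polynomial.eval_mul, Polynomial.eval_C, Polynomial.eval_mul]
    have h7 := hg0 c hc
    field_simp

theorem RAN (hPRB : PRB_stmt) : RAN_stmt := by
  classical
  intro f Q V hf hQ hV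
  obtain ⟨B, hB, hBe⟩ := RAN_pf f Q hf hQ
  obtain ⟨hmem, -, -, -, -, -⟩ := hPRB f (by omega)
  set s := f.derivative.roots.toFinset with hs
  have hd0 : f.derivative ≠ 0 := by
    intro h
    have := Polynomial.natDegree_eq_zero_of_derivative_eq_zero h
    omega
  refine ⟨fun v => ∑ c ∈ s with f.eval c = v, (B c).coeff (f.natDegree - 1) / f.leadingCoeff, ?_⟩
  intro z hz
  have hzCV : z ∉ CV f := fun h => hz ((hV z).2 h)
  have h1 : TT f (fun y => Q.eval y) z =
      ((pre f z).map fun y => ∑ c ∈ s, (1 / (z - f.eval c)) * ((B c).eval y / fd f y)).sum := by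
    unfold TT
    congr 1
    refine Multiset.map_congr rfl fun y hy => ?_
    have hy' : f.eval y = z := (hmem z y).1 hy
    have h2 := hBe y (by rw [hy']; exact hzCV)
    rw [sq, ← div_div, h2, Finset.sum_div, hy']
    refine Finset.sum_congr rfl fun c _ => ?_
    ring
  have h3 : ∀ M : Multiset ℂ,
      (M.map fun y => ∑ c ∈ s, (1 / (z - f.eval c)) * ((B c).eval y / fd f y)).sum =
      ∑ c ∈ s, (1 / (z - f.eval c)) * (M.map fun y => (B c).eval y / fd f y).sum := by
    intro M
    induction M using Multiset.induction_on with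
    | empty => simp
    | cons a M ih =>
      simp only [Multiset.map_cons, Multiset.sum_cons, mul_add, Finset.sum_add_distrib]
      rw [ih]
  rw [h1, h3]
  have h4 : ∀ c ∈ s, (1 / (z - f.eval c)) * ((pre f z).map fun y => (B c).eval y / fd f y).sum =
      (B c).coeff (f.natDegree - 1) / f.leadingCoeff / (z - f.eval c) := by
    intro c hc
    rw [RAN_lag f (B c) (by omega) (hB c hc) z hzCV]
    ring
  rw [Finset.sum_congr rfl h4]
  have h5 : ∀ c ∈ s, f.eval c ∈ V := by
    intro c hc
    rw [hV]
    refine ⟨c, ?_, rfl⟩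
    rw [hs, Multiset.mem_toFinset, Polynomial.mem_roots hd0] at hc
    exact hc
  rw [← Finset.sum_fiberwise_of_maps_to h5]
  refine Finset.sum_congr rfl fun v _ => ?_
  rw [Finset.sum_div]
  refine Finset.sum_congr rfl fun c hc => ?_
  rw [(Finset.mem_filter.1 hc).2]

end PPS
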